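import Pool.Agent.Helper24K9.PL.Stm

set_option autoImplicit false

/-! The number of the vectors for which a linear form is divisible by a prime. -/

namespace Pool.Agent.Helper32K9.PL

open Finset Pool.Agent.Helper82K9.PR Pool.Agent.Helper24K9.PL

lemma dv_le_one (p : ℕ) (u : ℤ) : dv p u ≤ 1 := by
  unfold dv
  split_ifs <;> norm_num

lemma lf_shift (a b c : ℤ) (i : Fin (1 + 1)) (k : ℤ) (v : Fin (1 + 1) → ℤ) :
    lf a b c (v + Pi.single i k) = lf a b c v + k * (if i = 0 then a else b) := by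
  unfold lf
  fin_cases i
  · simp
    ring
  · simp
    ring

lemma key (H p : ℕ) (hp : p.Prime) (hH : 4 * p ^ 2 ≤ 2 * H + 1) (a b c : ℤ) (i : Fin (1 + 1))
    (hi : ¬ (p : ℤ) ∣ (if i = 0 then a else b)) :
    ∑ v ∈ Bx 1 H, dv p (lf a b c v) ≤ 2 * (Bx 1 H).card * (1 / p) := by
  classical
  have hpr : (0 : ℝ) < p := by exact_mod_cast hp.pos
  set q : ℤ := if i = 0 then a else b with hq
  set S := ∑ v ∈ Bx 1 H, dv p (lf a b c v) with hS
  have hsh : ∀ k ∈ Icc 1 p, S ≤ ∑ v ∈ Bx 1 H, dv p (lf a b c v + (k : ℤ) * q) +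
      2 * (((1 : ℕ) + 1) * p * (2 * H + 1) ^ 1) := by
    intro k hk
    rw [mem_Icc] at hk
    have h1 := box_shift 1 H (fun v => ((dv p (lf a b c v) : ℝ) : ℂ)) (by
      intro v
      rw [Complex.norm_real, Real.norm_of_nonneg (dv_nonneg _ _)]
      exact dv_le_one _ _) (Pi.single i (k : ℤ)) p (by
      intro j
      by_cases hj : j = i
      · subst hj
        rw [Pi.single_eq_same]
        rw [Int.cast_natCast, abs_of_nonneg (by positivity)]
        exact_mod_cast hk.2
      · rw [Pi.single_eq_of_ne hj, Int.cast_zero, abs_zero]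
        positivity)
    have e3 : ∑ v ∈ Bx 1 H, ((dv p (lf a b c v) : ℝ) : ℂ) -
        ∑ v ∈ Bx 1 H, ((dv p (lf a b c (v + Pi.single i (k : ℤ))) : ℝ) : ℂ) =
        ((S - ∑ v ∈ Bx 1 H, dv p (lf a b c v + (k : ℤ) * q) : ℝ) : ℂ) := by
      rw [← Complex.ofReal_sum, ← Complex.ofReal_sum, ← Complex.ofReal_sub]
      congr 3
      funext v
      rw [lf_shift]
    rw [e3, Complex.norm_real, Real.norm_eq_abs] at h1
    have := (abs_le.1 h1).2
    push_cast at this ⊢
    linarith
  have h2 : p * S ≤ ∑ k ∈ Icc 1 p, ∑ v ∈ Bx 1 H, dv p (lf a b c v + (k : ℤ) * q) +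
      p * (2 * (((1 : ℕ) + 1) * p * (2 * H + 1) ^ 1)) := by
    have := sum_le_sum hsh
    rw [sum_const, Nat.card_Icc, Nat.add_sub_cancel, nsmul_eq_mul, sum_add_distrib, sum_const, Nat.card_Icc,
      Nat.add_sub_cancel, nsmul_eq_mul] at this
    exact this
  have h3 : ∑ k ∈ Icc 1 p, ∑ v ∈ Bx 1 H, dv p (lf a b c v + (k : ℤ) * q) ≤ (Bx 1 H).card := by
    rw [sum_comm]
    calc ∑ v ∈ Bx 1 H, ∑ k ∈ Icc 1 p, dv p (lf a b c v + (k : ℤ) * q) ≤ ∑ v ∈ Bx 1 H, (1 : ℝ) := by
          apply sum_le_sum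
          intro v _
          unfold dv
          rw [← sum_filter, sum_const, nsmul_eq_mul, mul_one]
          have : ((Icc 1 p).filter (fun k : ℕ => (p : ℤ) ∣ lf a b c v + (k : ℤ) * q)).card ≤ 1 := by
            apply card_le_one.2
            intro x hx y hy
            rw [mem_filter, mem_Icc] at hx hy
            have h4 := dvd_sub hx.2 hy.2
            have h5 : (lf a b c v + (x : ℤ) * q) - (lf a b c v + (y : ℤ) * q) = ((x : ℤ) - y) * q := by ring
            rw [h5] at h4
            have h4' : (p : ℤ) ∣ (x : ℤ) - y := by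
              rcases (Nat.prime_iff_prime_int.1 hp).dvd_or_dvd h4 with h | h
              · exact h
              · exact absurd h hi
            by_contra hxy
            have h6 := Int.le_of_dvd (a := (p : ℤ)) (b := |(x : ℤ) - y|) (abs_pos.2 (by omega)) ((dvd_abs _ _).2 h4')
            have h7 : |(x : ℤ) - y| < p := by
              rw [abs_lt]; omega
            omega
          exact_mod_cast this
      _ = _ := by rw [sum_const, nsmul_eq_mul, mul_one]
  have h4 : (p : ℝ) * (2 * (((1 : ℕ) + 1) * p * (2 * H + 1) ^ 1)) ≤ (Bx 1 H).card := by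
    rw [card_Bx, pow_succ]
    have h5 : (4 * (p : ℝ) ^ 2) ≤ 2 * H + 1 := by exact_mod_cast hH
    have h6 : (0 : ℝ) ≤ 2 * H + 1 := by positivity
    push_cast
    nlinarith
  rw [mul_one_div, le_div_iff₀ hpr]
  linarith

theorem cnt : S_CNT := by
  intro H p hp hH a b c hab
  by_cases ha : (p : ℤ) ∣ a
  · have hb : ¬ (p : ℤ) ∣ b := fun h => hab ⟨ha, h⟩
    exact key H p hp hH a b c 1 (by simpa using hb)
  · exact key H p hp hH a b c 0 (by simpa using ha)

end Pool.Agent.Helper32K9.PL
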