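import Pool.Agent.Helper24K9.PL.Stm
import Pool.Agent.Erdos456.Mertens

set_option autoImplicit false

/-! Exponential moment of the large prime factors of the determinants. -/

namespace Pool.Agent.Helper32K9.PL

open Finset Filter Pool.Agent.Helper82K9.PR Pool.Agent.Helper24K9.PL

lemma dd_eq (g g' : Fin 3 → ℤ) (n m : ℕ) : dd g g' n m = (1 * (m : ℤ) + -(n : ℤ)) *
    (-((cA g g' * n + cB g g') * m + (cB g g' * n + cC g g'))) := by
  unfold dd ev cA cB cC
  ring

lemma exp_split (u v : ℝ) : Real.exp (u + v) - 1 ≤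
    1 / 2 * (Real.exp (2 * u) - 1) + 1 / 2 * (Real.exp (2 * v) - 1) := by
  have h1 : Real.exp (2 * u) = Real.exp u ^ 2 := by rw [← Real.exp_nat_mul]; norm_num
  have h2 : Real.exp (2 * v) = Real.exp v ^ 2 := by rw [← Real.exp_nat_mul]; norm_num
  rw [h1, h2, Real.exp_add]
  nlinarith [sq_nonneg (Real.exp u - Real.exp v)]

lemma sg_zero (z : ℕ) : sg z 0 = 0 := sg_small z 0 (Nat.zero_le _)

lemma point (g g' : Fin 3 → ℤ) (c : ℝ) (hc : 0 ≤ c) (z n m : ℕ) :
    Real.exp (c * sg z (dd g g' n m).natAbs) - 1 ≤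
      1 / 2 * (Real.exp (2 * c * sg z (1 * (m : ℤ) + -(n : ℤ)).natAbs) - 1) +
      1 / 2 * (Real.exp (2 * c * sg z ((cA g g' * n + cB g g') * m + (cB g g' * n + cC g g')).natAbs) - 1) := by
  have h0 : ∀ u : ℕ, 1 ≤ Real.exp (2 * c * sg z u) := fun u =>
    Real.one_le_exp (mul_nonneg (mul_nonneg (by norm_num) hc) (sg_nonneg z u))
  by_cases h : dd g g' n m = 0
  · rw [h, Int.natAbs_zero, sg_zero, mul_zero, Real.exp_zero]
    have h1 := h0 (1 * (m : ℤ) + -(n : ℤ)).natAbs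
    have h2 := h0 ((cA g g' * n + cB g g') * m + (cB g g' * n + cC g g')).natAbs
    linarith
  · rw [dd_eq] at h ⊢
    have h1 := left_ne_zero_of_mul h
    have h2 := right_ne_zero_of_mul h
    rw [Int.natAbs_mul, Int.natAbs_neg]
    have h3 := sg_mul z (1 * (m : ℤ) + -(n : ℤ)).natAbs
      ((cA g g' * n + cB g g') * m + (cB g g' * n + cC g g')).natAbs
      (Int.natAbs_ne_zero.2 h1) (Int.natAbs_ne_zero.2 (fun h4 => h2 (by rw [h4, neg_zero])))
    have h4 := Real.exp_le_exp.2 (mul_le_mul_of_nonneg_left h3 hc)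
    rw [mul_add] at h4
    have h5 := exp_split (c * sg z (1 * (m : ℤ) + -(n : ℤ)).natAbs)
      (c * sg z ((cA g g' * n + cB g g') * m + (cB g g' * n + cC g g')).natAbs)
    rw [← mul_assoc, ← mul_assoc] at h5
    linarith

lemma small_exp (K1 ε : ℝ) (hK1 : 0 ≤ K1) (hε : 0 < ε) (D : ℕ) (hD : 1 ≤ D) :
    ∀ᶠ x : ℕ in atTop, Real.exp (K1 * ∑ p ∈ Nat.primesLE (D * x ^ 2), (p : ℝ)⁻¹) ≤ ε * x := by
  obtain ⟨C, hC⟩ := Pool.Agent.Erdos456.Mert.mertens_inv
  have ho : (fun t : ℝ => Real.log t ^ K1) =o[atTop] (fun t : ℝ => t ^ (1 : ℝ)) :=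
    isLittleO_log_rpow_rpow_atTop K1 one_pos
  have hA : 0 < Real.exp (K1 * C) * 3 ^ K1 := by positivity
  have hb := ho.bound (c := ε / (Real.exp (K1 * C) * 3 ^ K1)) (by positivity)
  have hb' := tendsto_natCast_atTop_atTop.eventually hb
  filter_upwards [hb', eventually_ge_atTop (D + 3)] with x hx hxD
  have hx3 : (3 : ℝ) ≤ x := by exact_mod_cast (by omega : 3 ≤ x)
  have hDx : (D : ℝ) ≤ x := by exact_mod_cast (by omega : D ≤ x)
  have hD1 : (1 : ℝ) ≤ D := by exact_mod_cast hD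
  have hlx : 0 < Real.log x := Real.log_pos (by linarith)
  have hY3 : 3 ≤ D * x ^ 2 := by nlinarith
  have hY3' : (3 : ℝ) ≤ ((D * x ^ 2 : ℕ) : ℝ) := by exact_mod_cast hY3
  have hlY : 0 < Real.log ((D * x ^ 2 : ℕ) : ℝ) := Real.log_pos (by linarith)
  have h1 : Real.log ((D * x ^ 2 : ℕ) : ℝ) ≤ 3 * Real.log x := by
    have : ((D * x ^ 2 : ℕ) : ℝ) ≤ (x : ℝ) ^ 3 := by
      push_cast
      have : 0 ≤ (x : ℝ) ^ 2 := by positivity
      nlinarith
    have := Real.log_le_log (by linarith) this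
    rwa [Real.log_pow] at this
  have h2 : ∑ p ∈ Nat.primesLE (D * x ^ 2), (p : ℝ)⁻¹ ≤ Real.log (3 * Real.log x) + C := by
    have hset : Nat.primesLE (D * x ^ 2) = (Finset.Icc 1 (D * x ^ 2)).filter Nat.Prime := by
      ext p
      simp only [Nat.primesLE, Nat.primesBelow, Finset.mem_filter, Finset.mem_range, Finset.mem_Icc]
      constructor
      · rintro ⟨h, hp⟩; exact ⟨⟨hp.one_lt.le, by omega⟩, hp⟩
      · rintro ⟨h, hp⟩; exact ⟨by omega, hp⟩
    have h3 := (abs_le.1 (hC (D * x ^ 2) hY3)).2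
    have h4 : ∑ p ∈ Nat.primesLE (D * x ^ 2), (p : ℝ)⁻¹ =
        ∑ p ∈ (Finset.Icc 1 (D * x ^ 2)).filter Nat.Prime, (1 : ℝ) / p := by
      rw [hset]; exact Finset.sum_congr rfl fun p _ => by rw [one_div]
    rw [h4]
    have h5 := Real.log_le_log hlY h1
    linarith
  have h3 : Real.exp (K1 * ∑ p ∈ Nat.primesLE (D * x ^ 2), (p : ℝ)⁻¹) ≤
      Real.exp (K1 * C) * 3 ^ K1 * Real.log x ^ K1 := by
    have e : Real.exp (K1 * C) * 3 ^ K1 * Real.log x ^ K1 = Real.exp (K1 * (Real.log (3 * Real.log x) + C)) := by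
      rw [mul_assoc, ← Real.mul_rpow (by norm_num) hlx.le, Real.rpow_def_of_pos (by positivity), ← Real.exp_add]
      congr 1
      ring
    rw [e]
    exact Real.exp_le_exp.2 (mul_le_mul_of_nonneg_left h2 hK1)
  refine h3.trans ?_
  rw [Real.rpow_one, Real.norm_of_nonneg (by positivity), Real.norm_of_nonneg (by positivity)] at hx
  have h4 := mul_le_mul_of_nonneg_left hx hA.le
  refine h4.trans (le_of_eq ?_)
  field_simp

theorem mom (hlin : S_LIN) : S_MOM := by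
  intro g g' hNz c hc
  set K1 : ℝ := 2 * c * Real.exp (2 * c) with hK1
  have hK10 : 0 ≤ K1 := by positivity
  set D : ℕ := (cA g g').natAbs + 2 * (cB g g').natAbs + (cC g g').natAbs + 1 with hD
  refine ⟨K1 + 1, by linarith, (cB g g' ^ 2 - cA g g' * cC g g').natAbs + (cC g g').natAbs + 1, by omega,
    fun z hz => ?_⟩
  have hz1 : 1 ≤ z := by omega
  have hz0 : (0 : ℝ) < z := by exact_mod_cast hz1
  have hε : 0 < Real.exp ((K1 + 1) / z) - 1 := by
    have : (0 : ℝ) < (K1 + 1) / z := by positivity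
    have := Real.add_one_lt_exp this.ne'
    linarith
  obtain ⟨x0, hx0⟩ := eventually_atTop.1 (small_exp K1 _ hK10 hε D (by omega))
  refine ⟨x0, fun x hx n hn => ?_⟩
  have hE := hx0 x hx
  rw [mem_Icc] at hn
  have hx1 : 1 ≤ x := hn.1.trans hn.2
  have hcop : ∀ p : ℕ, p.Prime → z < p → (p : ℤ) ∣ cA g g' * n + cB g g' → ¬ (p : ℤ) ∣ cB g g' * n + cC g g' := by
    intro p hp hzp h1 h2
    have hnd : ∀ u : ℤ, u ≠ 0 → u.natAbs < p → ¬ (p : ℤ) ∣ u := by
      intro u hu hup hd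
      have := Nat.le_of_dvd (Int.natAbs_pos.2 hu) (Int.natCast_dvd.1 hd)
      omega
    rcases hNz with h | ⟨hA, hB, hCC⟩
    · refine hnd (cB g g' ^ 2 - cA g g' * cC g g') (sub_ne_zero.2 h) (by omega) ?_
      have h3 := dvd_sub (h1.mul_left (cB g g')) (h2.mul_left (cA g g'))
      have e : cB g g' * (cA g g' * n + cB g g') - cA g g' * (cB g g' * n + cC g g') =
          cB g g' ^ 2 - cA g g' * cC g g' := by ring
      rwa [e] at h3
    · rw [hB, zero_mul, zero_add] at h2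
      exact hnd (cC g g') hCC (by omega) h2
  have hnx : (n : ℤ) ≤ x := by exact_mod_cast hn.2
  have hx1' : (1 : ℤ) ≤ x := by exact_mod_cast hx1
  have hn0 : (0 : ℤ) ≤ n := by positivity
  have hDc : (D : ℤ) = |cA g g'| + 2 * |cB g g'| + |cC g g'| + 1 := by
    rw [hD]; push_cast; rfl
  have hY1 : ∀ m ∈ Icc 1 x, (1 * (m : ℤ) + -(n : ℤ)).natAbs ≤ D * x ^ 2 := by
    intro m hm
    rw [mem_Icc] at hm
    have h1 : (1 * (m : ℤ) + -(n : ℤ)).natAbs ≤ x := by omega
    have h2 : x ≤ D * x ^ 2 := by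
      have := Nat.mul_le_mul (show 1 ≤ D by omega) (Nat.le_self_pow two_ne_zero x)
      rwa [one_mul] at this
    exact h1.trans h2
  have hY2 : ∀ m ∈ Icc 1 x, ((cA g g' * n + cB g g') * m + (cB g g' * n + cC g g')).natAbs ≤ D * x ^ 2 := by
    intro m hm
    rw [mem_Icc] at hm
    have hmx : (m : ℤ) ≤ x := by exact_mod_cast hm.2
    have hm0 : (0 : ℤ) ≤ m := by positivity
    zify
    rw [hDc]
    have hA := abs_nonneg (cA g g')
    have hB := abs_nonneg (cB g g')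
    have hCC := abs_nonneg (cC g g')
    have h1 : (n : ℤ) * m ≤ x ^ 2 := by nlinarith
    have h2 : (n : ℤ) ≤ x ^ 2 := by nlinarith
    have h3 : (m : ℤ) ≤ x ^ 2 := by nlinarith
    have h4 : (1 : ℤ) ≤ x ^ 2 := by nlinarith
    have e1 : |cA g g' * n * m| ≤ |cA g g'| * x ^ 2 := by
      rw [mul_assoc, abs_mul, abs_of_nonneg (mul_nonneg hn0 hm0)]
      exact mul_le_mul_of_nonneg_left h1 hA
    have e2 : |cB g g' * m| ≤ |cB g g'| * x ^ 2 := by
      rw [abs_mul, abs_of_nonneg hm0]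
      exact mul_le_mul_of_nonneg_left h3 hB
    have e3 : |cB g g' * n| ≤ |cB g g'| * x ^ 2 := by
      rw [abs_mul, abs_of_nonneg hn0]
      exact mul_le_mul_of_nonneg_left h2 hB
    have e4 : |cC g g'| ≤ |cC g g'| * x ^ 2 := by nlinarith
    calc |(cA g g' * n + cB g g') * m + (cB g g' * n + cC g g')|
        = |cA g g' * n * m + cB g g' * m + (cB g g' * n + cC g g')| := by ring_nf
      _ ≤ |cA g g' * n * m| + |cB g g' * m| + (|cB g g' * n| + |cC g g'|) := by
          refine (abs_add_le _ _).trans (add_le_add (abs_add_le _ _) (abs_add_le _ _))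
      _ ≤ (|cA g g'| + 2 * |cB g g'| + |cC g g'| + 1) * x ^ 2 := by nlinarith
  have hL1 := hlin (2 * c) (by positivity) z x (D * x ^ 2) hz1 1 (-(n : ℤ))
    (fun p hp _ h _ => hp.one_lt.ne' (by exact_mod_cast Int.eq_one_of_dvd_one (by positivity) h)) hY1
  have hL2 := hlin (2 * c) (by positivity) z x (D * x ^ 2) hz1 (cA g g' * n + cB g g') (cB g g' * n + cC g g') hcop hY2
  rw [← hK1] at hL1 hL2
  have hxr : (0 : ℝ) ≤ x := by positivity
  have hmono : Real.exp (K1 / z) ≤ Real.exp ((K1 + 1) / z) :=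
    Real.exp_le_exp.2 (div_le_div_of_nonneg_right (by linarith) hz0.le)
  have hS := sum_le_sum (s := Icc 1 x) fun m _ => point g g' c hc z n m
  refine hS.trans ?_
  rw [sum_add_distrib, ← mul_sum, ← mul_sum, sum_sub_distrib, sum_sub_distrib]
  have hcard : ∑ _m ∈ Icc 1 x, (1 : ℝ) = x := by simp
  rw [hcard]
  have h5 := mul_le_mul_of_nonneg_left hmono hxr
  nlinarith [mul_nonneg hxr hε.le]

end Pool.Agent.Helper32K9.PL
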